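import Pool.Agent.Work.MP_bd00dd_co.Final

/-!
Fejes Toth's conjecture (1975) for convex prototiles: if the congruent copies of a compact convex
set with nonempty interior tile the plane and every tile has exactly n neighbours (other tiles
which meet it), then n <= 21.
-/

namespace Pool.Agent.Results.MP_bd00dd_co.ConvexTile

theorem result {ι : Type*} (P : Set (EuclideanSpace ℝ (Fin 2)))
    (hconv : Convex ℝ P) (hcomp : IsCompact P) (hint : (interior P).Nonempty)
    (g : ι → EuclideanSpace ℝ (Fin 2) ≃ᵢ EuclideanSpace ℝ (Fin 2))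
    (hcov : ⋃ i, g i '' P = Set.univ)
    (hdisj : ∀ i j, i ≠ j → Disjoint (interior (g i '' P)) (interior (g j '' P)))
    (n : ℕ) (hn : ∀ i, {j | j ≠ i ∧ (g i '' P ∩ g j '' P).Nonempty}.ncard = n) :
    n ≤ 21 :=
  Pool.Agent.Work.MP_bd00dd_co.main ⟨hconv, hcomp, hint, hcov, hdisj⟩ hn

end Pool.Agent.Results.MP_bd00dd_co.ConvexTile
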